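import Mathlib
import Pool.Agent.H.MP_f0f681_an.A

namespace Pool.Agent.H.MP_cf2fa9_an
open Filter Topology InnerProductSpace FreeGroup ComplexOrder Pool.Agent.H.MP_f0f681_an

attribute [-instance] CStarModule.toInner

abbrev Fr := FreeGroup (Fin 5)
abbrev Lt := Fin 5 × Bool
noncomputable abbrev E := lp (fun _ : Fr => ℂ) 2

def iv (t : Lt) : Lt := (t.1, !t.2)

lemma iv_iv (t : Lt) : iv (iv t) = t := by simp [iv]

lemma mk_iv (t : Lt) : (mk [iv t] : Fr) = (mk [t])⁻¹ := by simp [inv_mk, invRev, iv]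

lemma tw {t : Lt} {g : Fr} (h : g.toWord.head? ≠ some (iv t)) :
    (mk [t] * g).toWord = t :: g.toWord := by
  rw [toWord_mul, toWord_mk, reduce_singleton, List.singleton_append, reduce.cons, reduce_toWord]
  cases hg : g.toWord with
  | nil => rfl
  | cons a l =>
    rw [hg] at h
    refine if_neg fun h' => h ?_
    simp [iv, h'.1, h'.2]

noncomputable def P (a : Fr) : E →ₗ[ℂ] E where
  toFun f := ⟨fun w => f (a⁻¹ * w), memℓp_gen
    ((Equiv.mulLeft a⁻¹).summable_iff.2 ((lp.memℓp f).summable (by simp)))⟩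
  map_add' _ _ := rfl
  map_smul' _ _ := rfl

lemma P_apply (a : Fr) (f : E) (w : Fr) : P a f w = f (a⁻¹ * w) := rfl

noncomputable def lam : URep Fr :=
  mkRep E P (fun v => by ext w; simp [P_apply]) (fun g h v => by ext w; simp [P_apply, mul_assoc])
    fun g v => by
      rw [lp.norm_eq_tsum_rpow (by simp), lp.norm_eq_tsum_rpow (by simp)]
      congr 1
      exact (Equiv.mulLeft g⁻¹).tsum_eq fun w => ‖v w‖ ^ (2 : ENNReal).toReal

noncomputable def lp' : Fr →* (E ≃ₗᵢ[ℂ] E) := lam.π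

noncomputable def δ (a : Fr) : E := lp.single 2 a 1

lemma inner_δ (a : Fr) (x : E) : ⟪δ a, x⟫_ℂ = x a := by simp [δ, lp.inner_single_left]

lemma δ_apply (a w : Fr) : δ a w = if w = a then 1 else 0 := by
  simp [δ, lp.single_apply, Pi.single_apply]

noncomputable def τ : ℂ := ((3 + √8 : ℝ) : ℂ)

lemma τ_sq : τ ^ 2 + 1 = 6 * τ := by
  have : (3 + √8) ^ 2 + 1 = 6 * (3 + √8) := by nlinarith [Real.sq_sqrt (by norm_num : (0 : ℝ) ≤ 8)]
  rw [τ]; exact_mod_cast this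

lemma τ_ne : τ ≠ 0 := by
  intro h
  have := τ_sq
  simp [h] at this

noncomputable def R (a : Fr) : E ≃ₗᵢ[ℂ] E := (ℂ ∙ (δ a - τ • δ 1))ᗮ.reflection

lemma R_apply {a : Fr} (ha : a ≠ 1) (x : E) (w : Fr) :
    R a x w = x w - (x a - τ * x 1) / (3 * τ) * (δ a w - τ * δ 1 w) := by
  have h : ∀ y : E, ⟪δ a - τ • δ 1, y⟫_ℂ = y a - τ * y 1 := by
    intro y; simp [inner_sub_left, inner_δ, τ, -Complex.ofReal_add]
  have h2 : ((‖δ a - τ • δ 1‖ : ℂ)) ^ 2 = 6 * τ := by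
    have := h (δ a - τ • δ 1)
    rw [inner_self_eq_norm_sq_to_K] at this
    refine this.trans ?_
    simp [δ_apply, ha, ha.symm, ← τ_sq]; ring
  rw [R, Submodule.reflection_orthogonal_apply, Submodule.reflection_singleton_apply, h]
  erw [h2]
  rw [two_nsmul]
  simp
  ring

noncomputable def sg : Fr →* (E ≃ₗᵢ[ℂ] E) :=
  FreeGroup.lift fun i => R (of i) * lp' (of i)

lemma step (t : Lt) (x : E) : (∃ c, sg (mk [t]) x 1 = 1 / 3 * x 1 + c * x (mk [t])⁻¹) ∧
    ∀ w, w ≠ 1 → w ≠ mk [t] → sg (mk [t]) x w = x ((mk [t])⁻¹ * w) := by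
  obtain ⟨i, b⟩ := t
  have ha : (of i : Fr) ≠ 1 := of_ne_one i
  cases b
  · have e : (mk [(i, false)] : Fr) = (of i)⁻¹ := mk_iv (i, true)
    have e2 : ∀ w, sg (of i)⁻¹ x w = R (of i) x (of i * w) := by
      intro w
      have : sg (of i)⁻¹ = lp' (of i)⁻¹ * R (of i) := by
        rw [_root_.map_inv, _root_.map_inv, sg, lift_apply_of, mul_inv_rev, R,
          Submodule.reflection_inv]
      rw [this]
      exact (P_apply (of i)⁻¹ _ w).trans (by rw [inv_inv]; rfl)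
    rw [e]
    have := τ_ne
    refine ⟨⟨1 - 1 / (3 * τ), ?_⟩, fun w h1 h2 => ?_⟩
    · rw [e2, R_apply ha]; simp [δ_apply, ha]; field_simp; ring
    · rw [e2, R_apply ha]
      have : of i * w ≠ 1 := fun h => h2 (eq_inv_of_mul_eq_one_right h)
      simp [δ_apply, h1, this]
  · have e2 : ∀ w, sg (of i) x w = R (of i) (P (of i) x) w := by
      intro w; rw [sg, lift_apply_of]; rfl
    change (∃ c, sg (of i) x 1 = 1 / 3 * x 1 + c * x (of i)⁻¹) ∧
      ∀ w, w ≠ 1 → w ≠ of i → sg (of i) x w = x ((of i)⁻¹ * w)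
    have := τ_ne
    refine ⟨⟨1 - τ / 3, ?_⟩, fun w h1 h2 => ?_⟩
    · rw [e2, R_apply ha]; simp [δ_apply, ha.symm, P_apply]; field_simp; ring
    · rw [e2, R_apply ha]; simp [δ_apply, h1, h2, P_apply]

lemma main (l : List Lt) (hl : IsReduced l) : sg (mk l) (δ 1) 1 = (1 / 3) ^ l.length ∧
    ∀ w : Fr, w ≠ 1 → w.toWord.head? ≠ l.head? → sg (mk l) (δ 1) w = 0 := by
  induction l with
  | nil =>
    rw [← one_eq_mk, _root_.map_one]
    exact ⟨by simp [δ_apply], fun w hw _ => by simp [δ_apply, hw]⟩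
  | cons t l ih =>
    obtain ⟨h1, h2⟩ := ih hl.tail
    have hh : some (iv t) ≠ l.head? := by
      intro h
      have := hl.rel_head? (y := iv t) (by simp [← h]) rfl
      simp [iv] at this
    have e : sg (mk (t :: l)) (δ 1) = sg (mk [t]) (sg (mk l) (δ 1)) := by
      rw [show mk (t :: l) = mk [t] * mk l from rfl, _root_.map_mul]; rfl
    obtain ⟨⟨c, h3⟩, h4⟩ := step t (sg (mk l) (δ 1))
    have key : ∀ w : Fr, w.toWord.head? ≠ some t → sg (mk l) (δ 1) ((mk [t])⁻¹ * w) = 0 := by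
      intro w hw
      have := tw (t := iv t) (g := w) (by rwa [iv_iv])
      rw [mk_iv] at this
      exact h2 _ (fun h => by rw [h] at this; simp at this) (by rw [this]; exact hh)
    rw [e]
    refine ⟨?_, fun w hw hw' => ?_⟩
    · have := key 1 (by simp)
      rw [mul_one] at this
      rw [h3, this, h1, List.length_cons, pow_succ']; simp
    · rw [h4 w hw (fun h => hw' (by simp [h])), key w hw']

lemma sg_coef (g : Fr) : ⟪δ 1, sg g (δ 1)⟫_ℂ = (1 / 3) ^ g.norm := by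
  have := (main g.toWord isReduced_toWord).1
  rwa [mk_toWord, ← inner_δ] at this

noncomputable def f (g : Fr) : ℂ := (1 / 3) ^ g.norm

lemma f_inv (g : Fr) : f g⁻¹ = f g := by simp [f]

lemma avg (g : Fr) : ∑ t : Lt, f (mk [t] * g) = 6 * f g - 8 / 3 * δ 1 g := by
  cases hg : g.toWord with
  | nil =>
    rw [toWord_eq_nil_iff.1 hg]
    simp [f, FreeGroup.norm, δ_apply]; norm_num
  | cons a l =>
    have g1 : g ≠ 1 := by rintro rfl; simp at hg
    have hl : IsReduced l := List.IsChain.tail (l := a :: l) (hg ▸ isReduced_toWord)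
    have e : mk [iv a] * g = mk l := by
      rw [mk_iv, inv_mul_eq_iff_eq_mul, ← mk_toWord (x := g), hg]; rfl
    have h1 : f (mk [iv a] * g) = 3 * f g := by
      rw [e, f, f, FreeGroup.norm, FreeGroup.norm, toWord_mk, hl.reduce_eq, hg, List.length_cons]
      ring
    have h2 : ∀ t : Lt, f (mk [t] * g) = 1 / 3 * f g + if t = iv a then 8 / 3 * f g else 0 := by
      intro t
      split_ifs with h
      · rw [h, h1]; ring
      · rw [f, f, FreeGroup.norm, tw, List.length_cons, pow_succ', add_zero]; · rfl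
        rw [hg]
        intro h'
        exact h (by rw [Option.some.inj h', iv_iv])
    simp only [h2, Finset.sum_add_distrib]
    simp [δ_apply, g1]
    ring

def e : Lt ≃ Lt := Function.Involutive.toPerm iv iv_iv

lemma avg' (g : Fr) : ∑ t : Lt, f ((mk [t])⁻¹ * g) = 6 * f g - 8 / 3 * δ 1 g := by
  rw [← avg, ← e.sum_comp fun t => f (mk [t] * g)]
  exact Finset.sum_congr rfl fun t _ => by rw [← mk_iv]; rfl

lemma avg'' (g : Fr) : ∑ t : Lt, f (g * mk [t]) = 6 * f g - 8 / 3 * δ 1 g := by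
  have := avg' g⁻¹
  simp only [← mul_inv_rev, f_inv] at this
  simpa [δ_apply] using this

def PD (φ : Fr → ℂ) : Prop := ∀ (n : ℕ) (g : Fin n → Fr) (c : Fin n → ℂ),
  0 ≤ ∑ i, ∑ j, starRingEnd ℂ (c i) * c j * φ ((g i)⁻¹ * g j)

lemma pd_coef (ρ : URep Fr) (ξ : ρ.V) : PD fun g => ⟪ξ, ρ.π g ξ⟫_ℂ := by
  intro n g c
  have : ∑ i, ∑ j, starRingEnd ℂ (c i) * c j * ⟪ξ, ρ.π ((g i)⁻¹ * g j) ξ⟫_ℂ =
      ⟪∑ i, c i • ρ.π (g i) ξ, ∑ i, c i • ρ.π (g i) ξ⟫_ℂ := by
    simp only [sum_inner, inner_sum, inner_smul_left, inner_smul_right, π_mul, π_inner ρ _⁻¹,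
      inv_inv, Finset.mul_sum]
    rw [Finset.sum_comm]
    exact Finset.sum_congr rfl fun _ _ => Finset.sum_congr rfl fun _ _ => by ring
  rw [this, inner_self_eq_norm_sq_to_K]
  exact pow_nonneg (Complex.zero_le_real.2 (norm_nonneg (∑ i, c i • ρ.π (g i) ξ))) _

lemma psi (g : Fr) : ⟪(7 / 10 : ℂ) • δ 1 + (1 / 20 : ℂ) • ∑ t : Lt, sg (mk [t]) (δ 1),
    sg g ((7 / 10 : ℂ) • δ 1 + (1 / 20 : ℂ) • ∑ t : Lt, sg (mk [t]) (δ 1))⟫_ℂ =
    f g - 17 / 75 * δ 1 g - 1 / 150 * ∑ t : Lt, δ 1 ((mk [t])⁻¹ * g) := by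
  let σ : URep Fr := { V := E, π := sg }
  have h : ∀ a b : Fr, ⟪sg a (δ 1), sg g (sg b (δ 1))⟫_ℂ = f (a⁻¹ * g * b) := by
    intro a b
    rw [f, ← sg_coef]
    have := π_inner σ a⁻¹ (δ 1) (sg g (sg b (δ 1)))
    rw [inv_inv] at this
    rw [_root_.map_mul, _root_.map_mul]
    exact this.symm
  have h1 := h 1 1
  have h2 := h 1
  have h3 := fun a => h a 1
  simp only [_root_.map_one, LinearIsometryEquiv.coe_one, id, inv_one, one_mul, mul_one] at h1 h2 h3
  simp only [map_add, map_smul, map_sum, inner_add_left, inner_add_right, inner_smul_left,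
    inner_smul_right, sum_inner, inner_sum, h, h1, h2, h3, avg', map_div₀, map_ofNat, _root_.map_one,
    ← Finset.mul_sum, Finset.sum_add_distrib]
  rw [Finset.sum_comm]
  simp only [avg'', Finset.sum_sub_distrib, ← Finset.mul_sum, avg']
  ring

lemma two (t g : Fr) : ⟪δ 1 + δ t, lp' g (δ 1 + δ t)⟫_ℂ =
    2 * δ 1 g + δ 1 (t⁻¹ * g) + δ 1 (t * g) := by
  have : ∀ x w, lp' g x w = x (g⁻¹ * w) := fun _ _ => rfl
  have e1 : δ t g⁻¹ = δ 1 (t * g) := by
    simp only [δ_apply, mul_eq_one_iff_eq_inv, @eq_comm _ t]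
  have e2 : δ 1 (g⁻¹ * t) = δ 1 (t⁻¹ * g) := by
    simp only [δ_apply, inv_mul_eq_one, @eq_comm _ t]
  have e3 : δ t (g⁻¹ * t) = δ 1 g := by simp [δ_apply]
  have e4 : δ 1 g⁻¹ = δ 1 g := by simp [δ_apply]
  simp only [inner_add_left, inner_δ, this, lp.coeFn_add, Pi.add_apply, mul_one, e1, e2, e3, e4]
  ring

theorem pd : PD fun g => f g - 4 / 25 * δ 1 g := by
  intro n g c
  let σ : URep Fr := { V := E, π := sg }
  have p1 : PD fun g => f g - 17 / 75 * δ 1 g - 1 / 150 * ∑ t : Lt, δ 1 ((mk [t])⁻¹ * g) := by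
    rw [← funext psi]
    exact pd_coef σ _
  have p2 : ∀ t, PD fun g => 2 * δ 1 g + δ 1 (t⁻¹ * g) + δ 1 (t * g) := by
    intro t
    rw [← funext (two t)]
    exact pd_coef lam _
  have h1 := p1 n g c
  have h2 := Finset.sum_nonneg fun (t : Lt) (_ : t ∈ Finset.univ) => p2 (mk [t]) n g c
  have h3 : (0 : ℂ) ≤ 1 / 300 := by
    rw [show (1 / 300 : ℂ) = ((1 / 300 : ℝ) : ℂ) by norm_num]; exact Complex.zero_le_real.2 (by norm_num)
  refine le_of_le_of_eq (add_nonneg h1 (mul_nonneg h3 h2)) ?_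
  rw [Finset.sum_comm (s := Finset.univ (α := Lt)), Finset.mul_sum, ← Finset.sum_add_distrib]
  refine Finset.sum_congr rfl fun i _ => ?_
  rw [Finset.sum_comm (s := Finset.univ (α := Lt)), Finset.mul_sum, ← Finset.sum_add_distrib]
  refine Finset.sum_congr rfl fun j _ => ?_
  obtain ⟨x, hx⟩ : ∃ x, x = (g i)⁻¹ * g j := ⟨_, rfl⟩
  rw [← hx, ← Finset.mul_sum]
  have : ∑ t : Lt, δ 1 (mk [t] * x) = ∑ t : Lt, δ 1 ((mk [t])⁻¹ * x) := by
    rw [← e.sum_comp fun t => δ 1 (mk [t] * x)]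
    exact Finset.sum_congr rfl fun t _ => by rw [← mk_iv]; rfl
  simp only [Finset.sum_add_distrib, this, Finset.sum_const, Finset.card_univ, Fintype.card_prod,
    Fintype.card_fin, Fintype.card_bool, nsmul_eq_mul]
  push_cast
  ring

end Pool.Agent.H.MP_cf2fa9_an
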